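import Pool.Agent.H798.BV.Stm2

/-!
First order expansion of `χ_p (a - x)` for `2 < p ≤ 3`.
-/

set_option autoImplicit false

open Pool.Agent.H798.BV

namespace Pool.Agent.H663.BV

/-- second order bounds from Bernoulli's inequality -/
theorem bern {s t : ℝ} (hs0 : 0 ≤ s) (hs1 : s ≤ 1) (ht : -1 < t) :
    |(1 + t) ^ s - 1 - s * t| ≤ t ^ 2 := by
  have h0 : 0 < 1 + t := by linarith
  have hup := rpow_one_add_le_one_add_mul_self (s := t) (by linarith) hs0 hs1
  have hlow : 1 + s * t - t ^ 2 ≤ (1 + t) ^ s := by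
    have h1 := rpow_one_add_le_one_add_mul_self (s := t) (p := 1 - s) (by linarith) (by linarith)
      (by linarith)
    have h2 : 0 < (1 + t) ^ (1 - s) := Real.rpow_pos_of_pos h0 _
    have h3 : (1 + t) ^ s * (1 + t) ^ (1 - s) = 1 + t := by
      rw [← Real.rpow_add h0]; simp
    have h4 : 0 < (1 + t) ^ s := Real.rpow_pos_of_pos h0 _
    have h5 : 1 + t ≤ (1 + t) ^ s * (1 + (1 - s) * t) := by
      calc 1 + t = (1 + t) ^ s * (1 + t) ^ (1 - s) := h3.symm
        _ ≤ _ := mul_le_mul_of_nonneg_left h1 h4.le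
    rcases le_or_gt (1 + s * t - t ^ 2) 0 with h6 | h6
    · linarith
    · have h7 : 0 < 1 + (1 - s) * t := by
        by_contra h8
        push Not at h8
        nlinarith [mul_nonneg h4.le (neg_nonneg.2 h8)]
      by_contra h8
      push Not at h8
      have h9 : (1 + t) ^ s * (1 + (1 - s) * t) < (1 + s * t - t ^ 2) * (1 + (1 - s) * t) :=
        mul_lt_mul_of_pos_right h8 h7
      have h10 : (1 + s * t - t ^ 2) * (1 + (1 - s) * t) =
          1 + t - t ^ 2 * ((1 - s * (1 - s)) + (1 - s) * t) := by ring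
      have h11 : 0 ≤ t ^ 2 * ((1 - s * (1 - s)) + (1 - s) * t) := by
        apply mul_nonneg (sq_nonneg t)
        nlinarith [sq_nonneg s]
      linarith
  rw [abs_le]
  constructor <;> linarith [sq_nonneg t]

theorem norm_sq_eq (z : ℂ) : ‖z‖ ^ 2 = z.re ^ 2 + z.im ^ 2 := by
  rw [Complex.sq_norm, Complex.normSq_apply]
  ring

/-- powers of norms through squares -/
theorem norm_pow_eq {p : ℝ} (z : ℂ) : ‖z‖ ^ (p - 2) = (‖z‖ ^ 2) ^ ((p - 2) / 2) := by
  rw [← Real.rpow_natCast ‖z‖ 2, ← Real.rpow_mul (norm_nonneg z)]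
  congr 1
  push_cast
  ring

theorem norm_chi {p : ℝ} (hp : 1 < p) (z : ℂ) : ‖chi p z‖ = ‖z‖ ^ (p - 1) := by
  unfold chi
  rw [norm_mul, Complex.norm_real, Real.norm_of_nonneg (Real.rpow_nonneg (norm_nonneg z) _)]
  rcases eq_or_ne z 0 with rfl | hz
  · simp
    rw [Real.zero_rpow (by linarith)]
  · have : 0 < ‖z‖ := norm_pos_iff.2 hz
    rw [show p - 1 = (p - 2) + 1 by ring, Real.rpow_add this, Real.rpow_one]

/-- the case `a = 1` -/
theorem one_case {p : ℝ} (hp1 : 2 < p) (hp2 : p ≤ 3) (y : ℂ) (hy : y ≠ 0) :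
    ‖chi p (1 - y) + chi p y
        - (‖y‖ ^ (p - 2) : ℝ) * ((p / 2 : ℝ) + ((p - 2) / 2 : ℝ) * (y / ‖y‖) ^ 2)‖ ≤ 20 := by
  have hr0 : 0 < ‖y‖ := norm_pos_iff.2 hy
  obtain ⟨r, hr⟩ : ∃ r : ℝ, r = ‖y‖ := ⟨_, rfl⟩
  rw [← hr] at hr0 ⊢
  have he : ‖(y / (r : ℂ)) ^ 2‖ = 1 := by
    rw [norm_pow, norm_div, Complex.norm_real, Real.norm_of_nonneg hr0.le, ← hr, div_self hr0.ne',
      one_pow]
  rcases le_or_gt r 2 with h2 | h2
  · -- bounded range
    have b1 : ‖chi p (1 - y)‖ ≤ 9 := by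
      rw [norm_chi (by linarith)]
      have h3 : ‖(1:ℂ) - y‖ ≤ 3 := (norm_sub_le _ _).trans (by rw [← hr]; simp; linarith)
      calc ‖(1:ℂ) - y‖ ^ (p - 1) ≤ (3:ℝ) ^ (p - 1) :=
            Real.rpow_le_rpow (norm_nonneg _) h3 (by linarith)
        _ ≤ (3:ℝ) ^ (2:ℝ) := Real.rpow_le_rpow_of_exponent_le (by norm_num) (by linarith)
        _ = 9 := by norm_num
    have b2 : ‖chi p y‖ ≤ 4 := by
      rw [norm_chi (by linarith), ← hr]
      calc r ^ (p - 1) ≤ (2:ℝ) ^ (p - 1) := Real.rpow_le_rpow hr0.le h2 (by linarith)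
        _ ≤ (2:ℝ) ^ (2:ℝ) := Real.rpow_le_rpow_of_exponent_le (by norm_num) (by linarith)
        _ = 4 := by norm_num
    have b3 : ‖((r ^ (p - 2) : ℝ) : ℂ) * ((p / 2 : ℝ) + ((p - 2) / 2 : ℝ) * (y / r) ^ 2)‖ ≤ 2 * 2 := by
      rw [norm_mul, Complex.norm_real, Real.norm_of_nonneg (Real.rpow_nonneg hr0.le _)]
      apply mul_le_mul
      · calc r ^ (p - 2) ≤ (2:ℝ) ^ (p - 2) := Real.rpow_le_rpow hr0.le h2 (by linarith)
          _ ≤ (2:ℝ) ^ (1:ℝ) := Real.rpow_le_rpow_of_exponent_le (by norm_num) (by linarith)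
          _ = 2 := by norm_num
      · refine (norm_add_le _ _).trans ?_
        rw [norm_mul, he, mul_one, Complex.norm_real, Complex.norm_real,
          Real.norm_of_nonneg (by linarith), Real.norm_of_nonneg (by linarith)]
        linarith
      · positivity
      · norm_num
    have := norm_sub_le (chi p (1 - y) + chi p y)
      (((r ^ (p - 2) : ℝ) : ℂ) * ((p / 2 : ℝ) + ((p - 2) / 2 : ℝ) * (y / r) ^ 2))
    have h4 := norm_add_le (chi p (1 - y)) (chi p y)
    linarith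
  · -- large `y`
    obtain ⟨s, hs⟩ : ∃ s : ℝ, s = (p - 2) / 2 := ⟨_, rfl⟩
    have hs0 : 0 ≤ s := by rw [hs]; linarith
    have hs1 : s ≤ 1 / 2 := by rw [hs]; linarith
    have hre : |y.re| ≤ r := by rw [hr]; exact Complex.abs_re_le_norm y
    obtain ⟨hre1, hre2⟩ := abs_le.1 hre
    obtain ⟨t, ht⟩ : ∃ t : ℝ, t = (1 - 2 * y.re) / r ^ 2 := ⟨_, rfl⟩
    have hr2 : r ^ 2 = y.re ^ 2 + y.im ^ 2 := by rw [hr]; exact norm_sq_eq y
    have hrt : r ^ 2 * t = 1 - 2 * y.re := by rw [ht]; field_simp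
    have hN : ‖(1 : ℂ) - y‖ ^ 2 = r ^ 2 * (1 + t) := by
      rw [norm_sq_eq]
      simp only [Complex.sub_re, Complex.one_re, Complex.sub_im, Complex.one_im]
      linear_combination -hrt - hr2
    have htabs : |t| ≤ 5 / 2 / r := by
      rw [ht, abs_div, abs_of_pos (by positivity : 0 < r ^ 2), div_le_div_iff₀ (by positivity) hr0]
      have : |1 - 2 * y.re| ≤ 1 + 2 * r := by rw [abs_le]; constructor <;> linarith
      nlinarith
    have ht1 : -1 < t := by
      have h3 : 0 < ‖(1 : ℂ) - y‖ := by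
        have := norm_sub_norm_le y (1:ℂ)
        rw [norm_sub_rev, ← hr, norm_one] at this
        linarith
      have h4 : 0 < r ^ 2 * (1 + t) := by rw [← hN]; positivity
      have h5 := (mul_pos_iff_of_pos_left (by positivity)).1 h4
      linarith
    have hb := bern hs0 (by linarith : s ≤ 1) ht1
    obtain ⟨δ, hδ⟩ : ∃ δ : ℝ, δ = (1 + t) ^ s - 1 - s * t := ⟨_, rfl⟩
    rw [← hδ] at hb
    have hpow : ‖(1 : ℂ) - y‖ ^ (p - 2) = r ^ (p - 2) * (1 + s * t + δ) := by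
      rw [norm_pow_eq, hN, Real.mul_rpow (by positivity) (by linarith), ← hs, hδ]
      congr 1
      · rw [← Real.rpow_natCast r 2, ← Real.rpow_mul hr0.le, hs]
        congr 1
        push_cast
        ring
      · ring
    have hp2s : p / 2 = 1 + s := by rw [hs]; ring
    have hrc : (r : ℂ) ≠ 0 := by exact_mod_cast hr0.ne'
    have hyy : 2 * (y.re : ℂ) * y = y ^ 2 + (r : ℂ) ^ 2 := by
      have h3 : (r : ℂ) ^ 2 = ((y.re ^ 2 + y.im ^ 2 : ℝ) : ℂ) := by rw [← hr2]; push_cast; ring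
      rw [h3]
      apply Complex.ext
      · simp [pow_two]; ring
      · simp [pow_two]; ring
    have hrtc : (r : ℂ) ^ 2 * (t : ℂ) = 1 - 2 * (y.re : ℂ) := by exact_mod_cast congrArg (fun x : ℝ => (x : ℂ)) hrt
    have heq : chi p (1 - y) + chi p y
        - ((r ^ (p - 2) : ℝ) : ℂ) * ((p / 2 : ℝ) + ((p - 2) / 2 : ℝ) * (y / r) ^ 2) =
        ((r ^ (p - 2) : ℝ) : ℂ) * ((s : ℂ) * ((t : ℂ) - y / (r : ℂ) ^ 2) + (δ : ℂ) * (1 - y)) := by
      have hk : (t : ℂ) * (1 - y) - 1 - (y / r) ^ 2 = (t : ℂ) - y / (r : ℂ) ^ 2 := by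
        have h3 : (r : ℂ) ^ 2 * ((t : ℂ) * (1 - y) - 1 - (y / r) ^ 2) =
            (r : ℂ) ^ 2 * ((t : ℂ) - y / (r : ℂ) ^ 2) := by
          have h4 : (r : ℂ) ^ 2 * (y / r) ^ 2 = y ^ 2 := by field_simp
          have h5 : (r : ℂ) ^ 2 * (y / (r : ℂ) ^ 2) = y := by field_simp
          calc (r : ℂ) ^ 2 * ((t : ℂ) * (1 - y) - 1 - (y / r) ^ 2)
              = ((r : ℂ) ^ 2 * (t : ℂ)) * (1 - y) - (r : ℂ) ^ 2 - (r : ℂ) ^ 2 * (y / r) ^ 2 := by ring
            _ = (r : ℂ) ^ 2 * (t : ℂ) - y := by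
                rw [h4]
                linear_combination (-y) * hrtc + hyy
            _ = (r : ℂ) ^ 2 * ((t : ℂ) - y / (r : ℂ) ^ 2) := by rw [mul_sub, h5]
        exact mul_left_cancel₀ (pow_ne_zero 2 hrc) h3
      unfold chi
      rw [hpow, ← hr, hp2s, ← hs]
      push_cast
      linear_combination (((r ^ (p - 2) : ℝ) : ℂ) * s) * hk
    rw [heq, norm_mul, Complex.norm_real, Real.norm_of_nonneg (Real.rpow_nonneg hr0.le _)]
    have hin : ‖(s : ℂ) * ((t : ℂ) - y / (r : ℂ) ^ 2) + (δ : ℂ) * (1 - y)‖ ≤ 20 / r := by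
      refine (norm_add_le _ _).trans ?_
      rw [norm_mul, norm_mul, Complex.norm_real, Complex.norm_real, Real.norm_of_nonneg hs0,
        Real.norm_eq_abs]
      have h3 : ‖(t : ℂ) - y / (r : ℂ) ^ 2‖ ≤ 5 / 2 / r + 1 / r := by
        refine (norm_sub_le _ _).trans ?_
        rw [Complex.norm_real, Real.norm_eq_abs, norm_div, norm_pow, Complex.norm_real,
          Real.norm_of_nonneg hr0.le, ← hr]
        have : r / r ^ 2 = 1 / r := by field_simp
        rw [this]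
        linarith
      have h4 : ‖(1:ℂ) - y‖ ≤ 3 / 2 * r := by
        refine (norm_sub_le _ _).trans ?_
        rw [← hr, norm_one]
        linarith
      have h5 : |δ| ≤ (5 / 2 / r) ^ 2 := by
        refine hb.trans ?_
        rw [← sq_abs]
        exact pow_le_pow_left₀ (abs_nonneg _) htabs 2
      calc s * ‖(t : ℂ) - y / (r : ℂ) ^ 2‖ + |δ| * ‖(1:ℂ) - y‖
          ≤ 1 / 2 * (5 / 2 / r + 1 / r) + (5 / 2 / r) ^ 2 * (3 / 2 * r) := by
            apply add_le_add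
            · exact mul_le_mul hs1 h3 (norm_nonneg _) (by norm_num)
            · exact mul_le_mul h5 h4 (norm_nonneg _) (by positivity)
        _ = (89 / 8) / r := by field_simp; norm_num
        _ ≤ 20 / r := by
            apply div_le_div_of_nonneg_right _ hr0.le
            norm_num
    have hpw : r ^ (p - 2) ≤ r := by
      calc r ^ (p - 2) ≤ r ^ (1:ℝ) :=
            Real.rpow_le_rpow_of_exponent_le (by linarith) (by linarith)
        _ = r := Real.rpow_one r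
    calc r ^ (p - 2) * ‖(s : ℂ) * ((t : ℂ) - y / (r : ℂ) ^ 2) + (δ : ℂ) * (1 - y)‖
        ≤ r * (20 / r) := mul_le_mul hpw hin (norm_nonneg _) hr0.le
      _ = 20 := by field_simp

theorem chi_smul {p : ℝ} {a : ℝ} (ha : 0 < a) (z : ℂ) :
    chi p ((a : ℂ) * z) = ((a ^ (p - 1) : ℝ) : ℂ) * chi p z := by
  unfold chi
  rw [norm_mul, Complex.norm_real, Real.norm_of_nonneg ha.le,
    Real.mul_rpow ha.le (norm_nonneg z), show p - 1 = (p - 2) + 1 by ring, Real.rpow_add ha,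
    Real.rpow_one]
  push_cast
  ring

theorem t_XPP : S_XPP := by
  intro p hp1 hp2
  refine ⟨20, by norm_num, fun a ha0 _ x hx => ?_⟩
  rcases eq_or_lt_of_le ha0 with h0 | ha
  · rw [← h0, Real.zero_rpow (by linarith)]
    have : chi p (((0:ℝ) : ℂ) - x) + chi p x = 0 := by
      unfold chi
      simp
    simp only [this]
    simp
  · have hac : (a : ℂ) ≠ 0 := by exact_mod_cast ha.ne'
    obtain ⟨y, hy⟩ : ∃ y : ℂ, y = x / (a : ℂ) := ⟨_, rfl⟩
    have hxy : x = (a : ℂ) * y := by rw [hy]; field_simp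
    have hy0 : y ≠ 0 := by rw [hy]; exact div_ne_zero hx hac
    have hyn : (‖y‖ : ℂ) ≠ 0 := by exact_mod_cast (norm_pos_iff.2 hy0).ne'
    have h1 := one_case hp1 hp2 y hy0
    have hsub : (a : ℂ) - x = (a : ℂ) * (1 - y) := by rw [hxy]; ring
    have hnx : ‖x‖ = a * ‖y‖ := by rw [hxy, norm_mul, Complex.norm_real, Real.norm_of_nonneg ha.le]
    have hdiv : x / (‖x‖ : ℂ) = y / (‖y‖ : ℂ) := by
      rw [hnx, hxy]
      push_cast
      field_simp
    have hap : a ^ (p - 1) = a * a ^ (p - 2) := by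
      rw [show p - 1 = 1 + (p - 2) by ring, Real.rpow_add ha, Real.rpow_one]
    have heq : chi p ((a : ℂ) - x) + chi p x
        - (a : ℂ) * (‖x‖ ^ (p - 2) : ℝ) * ((p / 2 : ℝ) + ((p - 2) / 2 : ℝ) * (x / ‖x‖) ^ 2) =
        ((a ^ (p - 1) : ℝ) : ℂ) * (chi p (1 - y) + chi p y
        - (‖y‖ ^ (p - 2) : ℝ) * ((p / 2 : ℝ) + ((p - 2) / 2 : ℝ) * (y / ‖y‖) ^ 2)) := by
      rw [hsub, hdiv, hnx, Real.mul_rpow ha.le (norm_nonneg y)]
      rw [show chi p x = chi p ((a : ℂ) * y) by rw [← hxy], chi_smul ha, chi_smul ha, hap]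
      push_cast
      ring
    rw [heq, norm_mul, Complex.norm_real, Real.norm_of_nonneg (Real.rpow_nonneg ha.le _), mul_comm]
    exact mul_le_mul_of_nonneg_right h1 (Real.rpow_nonneg ha.le _)

end Pool.Agent.H663.BV
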